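import Pool.Agent.helper47.SC.Spec

set_option autoImplicit false

open scoped Topology ContDiff
open Set Filter Metric MeasureTheory

namespace Pool.Agent.SC

/-- Row BLO: blow up at the boundary of `X`. -/
theorem BLO (h1 : GGB_stmt) (h2 : DOM_stmt) : BLO_stmt := by
  intro s m M hm hs hM p₀ hp₀ hX R
  obtain ⟨g1, g2, g3, g4, g5, g6, g7, g8⟩ := h1 s m hm hs
  obtain ⟨k₀, hk₀⟩ := exists_nat_ge (max R (‖p₀.1‖ + 1))
  have hR : R ≤ k₀ := le_trans (le_max_left _ _) hk₀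
  have hx : ‖p₀.1‖ + 1 ≤ k₀ := le_trans (le_max_right _ _) hk₀
  have e1 : ∀ᶠ p in 𝓝 p₀, ∀ j ∈ Finset.range (k₀ + 1), 3 / 2 < ‖BB s m j p‖ := by
    rw [Filter.eventually_all_finset]
    intro j _
    have hc : Continuous fun p => ‖BB s m j p‖ := (g7 j).continuous.norm
    have h2' : 3 / 2 < ‖BB s m j p₀‖ := lt_of_lt_of_le (by norm_num) (g3 j p₀ hp₀ hX)
    exact hc.continuousAt.eventually (lt_mem_nhds h2')
  have e2 : ∀ᶠ p : C2 in 𝓝 p₀, ‖p.2‖ < 1 / 4 := by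
    have hc : Continuous fun p : C2 => ‖p.2‖ := continuous_snd.norm
    exact hc.continuousAt.eventually (gt_mem_nhds hp₀)
  have e3 : ∀ᶠ p : C2 in 𝓝 p₀, ‖p.1‖ < (k₀ : ℝ) + 1 := by
    have hc : Continuous fun p : C2 => ‖p.1‖ := continuous_fst.norm
    have h3 : ‖p₀.1‖ < (k₀ : ℝ) + 1 := by linarith
    exact hc.continuousAt.eventually (gt_mem_nhds h3)
  filter_upwards [e1, e2, e3] with p q1 q2 q3 hpX
  obtain ⟨-, k₁, hk₁⟩ := id hpX
  have hlate : ∀ j, k₁ < j → 8 * ‖BB s m j p‖ ≤ 3 / 4 := g5 k₁ p q2 hk₁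
  classical
  have hP0 : 3 / 2 ≤ ‖BB s m k₀ p‖ := (q1 k₀ (by simp)).le
  have hk01 : k₀ ≤ k₁ := by
    by_contra hcon
    have := hlate k₀ (not_le.1 hcon)
    linarith
  obtain ⟨k, hk, hPk, hgr⟩ : ∃ k, k₀ ≤ k ∧ 3 / 2 ≤ ‖BB s m k p‖ ∧
      ∀ j, k < j → ‖BB s m j p‖ < 3 / 2 := by
    refine ⟨Nat.findGreatest (fun j => 3 / 2 ≤ ‖BB s m j p‖) k₁, Nat.le_findGreatest hk01 hP0,
      Nat.findGreatest_spec (P := fun j => 3 / 2 ≤ ‖BB s m j p‖) hk01 hP0, ?_⟩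
    intro j hj
    by_cases hj1 : j ≤ k₁
    · exact not_le.1 (Nat.findGreatest_is_greatest hj hj1)
    · have := hlate j (not_le.1 hj1)
      linarith [norm_nonneg (BB s m j p)]
  -- terms after `k + 1`
  have hsm : ∀ j, k < j → 8 * ‖BB s m (j + 1) p‖ ≤ 3 / 4 := by
    intro j hj
    have a1 := g2 j p q2
    have a2 : ‖BB s m j p‖ / 2 ≤ 3 / 4 := by linarith [hgr j hj]
    have a3 : (‖BB s m j p‖ / 2) ^ (m (j + 1)) ≤ (3 / 4 : ℝ) ^ (m (j + 1)) :=
      pow_le_pow_left₀ (by positivity) a2 _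
    have a4 : (3 / 4 : ℝ) ^ (m (j + 1)) ≤ (3 / 4 : ℝ) ^ 10 :=
      pow_le_pow_of_le_one (by norm_num) (by norm_num) (hm (j + 1))
    have a5 : 8 * (3 / 4 : ℝ) ^ 10 ≤ 3 / 4 := by norm_num
    linarith
  have hkR : R ≤ k := le_trans hR (by exact_mod_cast hk)
  have hpk : ‖p.1‖ ≤ (k : ℝ) + 1 := by
    have : (k₀ : ℝ) ≤ k := by exact_mod_cast hk
    linarith
  by_cases hc : ‖BB s m (k + 1) p‖ ≤ 3 / 4
  · left
    have h := h2 s m M hm hs hM 1 (Or.inl rfl) k p hpX hpk (by rwa [one_mul]) (by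
      intro j hj
      rw [one_mul]
      rcases Nat.lt_or_ge (k + 1) j with h3 | h3
      · obtain ⟨i, rfl⟩ : ∃ i, j = i + 1 := ⟨j - 1, by omega⟩
        have := hsm i (by omega)
        linarith [norm_nonneg (BB s m (i + 1) p)]
      · have : j = k + 1 := by omega
        rw [this]
        exact hc)
    linarith
  · right
    rw [not_le] at hc
    have h8 : ‖(8 : ℂ)‖ = 8 := by simp
    have h := h2 s m M hm hs hM 8 (Or.inr rfl) (k + 1) p hpX (by push_cast; linarith) (by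
      rw [norm_mul, h8]
      linarith) (by
      intro j hj
      rw [norm_mul, h8]
      obtain ⟨i, rfl⟩ : ∃ i, j = i + 1 := ⟨j - 1, by omega⟩
      exact hsm i (by omega))
    push_cast at h
    linarith

end Pool.Agent.SC
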